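import Pool.Agent.H55.MV.AverageLowerBound

/-!
# AverageLowerBound
-/

open Finset Filter Topology

namespace Pool.Agent.Results.MP_6b2836_nt.AverageLowerBound

open Pool.Agent.H89.Disc

/-- For every dimension `d ≥ 2` and every `χ < 1` there is a constant `C > 0` such that, for every
`N ≥ 1`, at least `χ N^d` of the tuples `a ∈ {0, ..., N-1}^d` have
`D_N(a) ≥ C (log N)^{d-1} log log N / N`. -/
theorem result (d : ℕ) (hd : 2 ≤ d) (χ : ℝ) (hχ : χ < 1) :
    ∃ C : ℝ, 0 < C ∧ ∀ N : ℕ, 1 ≤ N →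
      χ * (N:ℝ) ^ d ≤ (Set.ncard {a : Fin d → Fin N |
        C * ((Real.log N) ^ (d - 1) * Real.log (Real.log N) / N) ≤
          discrepancy d N (fun i => (a i : ℕ))} : ℝ) :=
  Pool.H55.MV.AverageLowerBound.result d hd χ hχ

end Pool.Agent.Results.MP_6b2836_nt.AverageLowerBound
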